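import Mathlib
import Pool.Agent.TH841.MD.Main
import Pool.Agent.TH841.MD.CNT
import Pool.Agent.TH841.MD.LOW
import Pool.Agent.TH841.MD.TLOW

/-!
# Elliptic curves over all multiquadratic fields of given degree

`E : y² = x³ + A x + B` is an elliptic curve with three integer roots. For an `m`-tuple `d` of
squarefree integers, independent modulo squares, let `F_d = ℚ(√d₁, ..., √d_m)` (all the
multiquadratic fields of degree `2 ^ m` are of this form, each for the same number of tuples), `R(d)`
the product of the primes dividing one of the `d_i` (so that the discriminant of `F_d` is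
`(R(d) or 2 R(d) or 4 R(d)) ^ (2 ^ (m - 1))`, up to powers of `2` bounded in terms of `m`), and
`ρ_d = rank E(F_d) + corank Ш(E / F_d)[2 ^ ∞]`. For every `k` the mean value of `2 ^ (k ρ_d)` over
all `d` with `R(d) ≤ X` is bounded, and so the proportion of the `d` with `ρ_d ≥ n` is at most
`C / 2 ^ (k n)`.
-/

set_option autoImplicit false

namespace Pool.Agent.Results.MP_787500_nt.AllMultiquadraticFields

open Finset

open Pool.Agent.TH841.NF.D (HasDiv crk rk)

/-- the curve `y² = x³ + A x + B` over `F` -/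
def EF (A B : ℤ) (F : Type) [Field F] : WeierstrassCurve F := ⟨0, 0, 0, (A : F), (B : F)⟩

/-- the number field `F` is generated by square roots of the integers `d i` -/
def Gen (F : Type) [Field F] [NumberField F] {m : ℕ} (d : Fin m → ℤ) : Prop :=
  ∃ x : Fin m → F, (∀ i, x i ^ 2 = (d i : F)) ∧
    IntermediateField.adjoin ℚ (Set.range x) = ⊤

/-- the product of the primes dividing one of the integers `d i` -/
def R {m : ℕ} (d : Fin m → ℤ) : ℕ := ∏ p ∈ (∏ i, d i).natAbs.primeFactors, p

open Classical in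
/-- the `m`-tuples of squarefree integers, independent modulo squares, with `R d ≤ X` (these
conditions imply `|d i| ≤ X`) -/
noncomputable def Tup (m X : ℕ) : Finset (Fin m → ℤ) :=
  (Fintype.piFinset fun _ : Fin m => Icc (-(X : ℤ)) X).filter fun d =>
    (∀ i, Squarefree (d i)) ∧ R d ≤ X ∧
      ∀ T : Finset (Fin m), T.Nonempty → ¬ IsSquare (∏ i ∈ T, d i)

open Classical in
/-- **Theorem.** Let `y² = (x - e₁) (x - e₂) (x - e₃) = x³ + A x + B` be an elliptic curve with
integers `e₁`, `e₂`, `e₃`, `m ≥ 1` and `F d = ℚ(√d₁, ..., √d_m)`. For all `k` there is `C` such that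
for all `X`, over all `m`-tuples `d` of squarefree integers, independent modulo squares, with
`R d ≤ X`: the sum of `2 ^ (k (rank E(F_d) + corank Ш(E / F_d)[2^∞]))` is at most `C` times the
number of the tuples, and for all `n` at most `C / 2 ^ (k n)` times this number have
`rank E(F_d) + corank Ш(E / F_d)[2^∞] ≥ n`. -/
theorem result (A B e₁ e₂ e₃ : ℤ) (hE : 4 * A ^ 3 + 27 * B ^ 2 ≠ 0)
    (he : ∀ x : ℤ, x ^ 3 + A * x + B = (x - e₁) * (x - e₂) * (x - e₃))
    (m : ℕ) (hm : 1 ≤ m) (k : ℕ) :
    ∃ C : ℝ, ∀ X : ℕ, ∀ (F : (Fin m → ℤ) → Type) [∀ d, Field (F d)] [∀ d, NumberField (F d)],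
      (∀ d ∈ Tup m X, Gen (F d) d) →
      ∀ W : ∀ d, WeierstrassCurve (F d), (∀ d, W d = EF A B (F d)) →
      (∀ d ∈ Tup m X, BddAbove {q | HasDiv (W d) q}) ∧
      ∑ d ∈ Tup m X, ((2 : ℝ) ^ (rk (W d) + crk (W d))) ^ k ≤ C * (Tup m X).card ∧
      ∀ n : ℕ, (((Tup m X).filter (fun d => n ≤ rk (W d) + crk (W d))).card : ℝ) ≤
        C * (Tup m X).card / 2 ^ (k * n) :=
  Pool.Agent.TH841.MD.main Pool.Agent.TH841.MD.CNTf.cnt Pool.Agent.TH841.MD.LOWf.low
    Pool.Agent.TH841.MD.TLOWf.tlow hE he m hm k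

end Pool.Agent.Results.MP_787500_nt.AllMultiquadraticFields
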