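import Mathlib
import Pool.Agent.TH344.PJ.Fin
import Pool.Agent.TH344.JG.Main
import Pool.Agent.TH344.JG.MW

/-!
# The 2-Selmer groups in one-parameter families of hyperelliptic Jacobians

Let `g ≥ 1` and let `u_0, ..., u_(2g)` be polynomials with integer coefficients, of any degrees,
such that each difference `u_i - u_j` is the product of `ν ≥ 1` different irreducible factors over
`ℚ`, the same number `ν` for all pairs, and the differences of different pairs are coprime. (For
instance `u_i = α_i t + β_i` with `ν = 1`, if the lines have different slopes and intersect over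
different points `t`; or generic polynomials of any degree.) Let
`J_t` be the Jacobian of the curve `y² = ∏ (x - u_i(t))` of genus `g`. We show that the mean value of
the order of the 2-Selmer group of `J_t` over the integers `t` of an interval `(N, N + M]`,
`|N| ≤ M ^ L`, is bounded, and more generally the mean value of the `k`-th power of this order, if
`2 ^ k ≤ 2 g`. More generally this is true for the mean value over the `t` for which the values
`|G_1(t)|, ..., |G_r(t)|` of given irreducible polynomials are all prime numbers, where `M` has to be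
replaced by `M / (log M) ^ r`. So for the number of the `t` with a 2-Selmer group of order at least
`2 ^ m` one has the bound `C M / (2 ^ (k m) (log M) ^ r)`.

The descent map. Every class of divisors of degree zero on `X : y² = ∏ (x - a_i)` over an infinite
field `K` contains a divisor `D_(u,v) = ∑ (x_j, v (x_j)) - deg u · ∞`, `x_j` the zeros of the monic
polynomial `u`, where `u` divides `∏ (x - a_i) - v²` and `u (a_i) ≠ 0` for all `i` (Mumford
representation). The map `J(K) / 2 J(K) → (K^* / K^*²)^(2g+1)` which sends this class to the family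
of the classes of `(-1) ^ deg u * u (a_i)` is injective, and it is induced by the isomorphism of
`J[2]` with the group of the families of signs with product one, indexed by the `a_i`. So the
2-Selmer group of `J` is the group of the families of classes in `ℚ^* / ℚ^*²`, that are in the image
over `ℝ` and over `ℚ_p` for all primes `p`. The classes of `ℚ^* / ℚ^*²` are represented by
squarefree integers.
-/

namespace Pool.Agent.Results.MP_787500_nt.JacobianPencils

open Polynomial Finset

/-- The family of the classes of the integers `d i` in `K^* / K^*²` is in the image of the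
Jacobian of `y² = ∏ (x - a i)` over `K`: there are a monic polynomial `u` and a polynomial `v` with
`u ∣ ∏ (x - a i) - v²`, such that `u (a i) ≠ 0` and `(-1) ^ deg u * u (a i) * d i` is a square for
all `i`. -/
def Image (K : Type) [Field K] {n : ℕ} (a d : Fin n → ℤ) : Prop :=
  ∃ u v : K[X], u.Monic ∧ u ∣ (∏ i, (X - C ((a i : ℤ) : K))) - v ^ 2 ∧
    ∀ i, u.eval ((a i : ℤ) : K) ≠ 0 ∧
      IsSquare ((-1) ^ u.natDegree * u.eval ((a i : ℤ) : K) * ((d i : ℤ) : K))

/-- The image of the Mordell-Weil group `J(ℚ)`, as a set of families of squarefree integers. It has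
as many elements as `J(ℚ) / 2 J(ℚ)`. -/
def MW {n : ℕ} (a : Fin n → ℤ) : Set (Fin n → ℤ) := {d | (∀ i, Squarefree (d i)) ∧ Image ℚ a d}

/-- The 2-Selmer group of the Jacobian `J` of `y² = ∏ (x - a i)`, as a set of families of
squarefree integers. The quotient of this group by `MW a` is `Ш(J)[2]`. -/
def Sel2 {n : ℕ} (a : Fin n → ℤ) : Set (Fin n → ℤ) :=
  {d | (∀ i, Squarefree (d i)) ∧ Image ℝ a d ∧ ∀ (p : ℕ) [Fact p.Prime], Image ℚ_[p] a d}

/-- the family of the Weierstrass points of the member `t` of the family of curves -/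
def member {n : ℕ} (u : Fin n → ℤ[X]) (t : ℤ) : Fin n → ℤ := fun i => (u i).eval t

/-- the polynomial `p` as a polynomial with rational coefficients -/
noncomputable def overQ (p : ℤ[X]) : ℚ[X] := p.map (Int.castRingHom ℚ)

/-- The family is admissible of type `ν`: over the rationals, each difference `u i - u j` is
squarefree with `ν` irreducible factors, and the differences of different pairs are coprime. -/
structure Admissible {n : ℕ} (ν : ℕ) (u : Fin n → ℤ[X]) : Prop where
  squarefree : ∀ i j, i < j → Squarefree (overQ (u i - u j))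
  card : ∀ i j, i < j →
    (UniqueFactorizationMonoid.normalizedFactors (overQ (u i - u j))).card = ν
  coprime : ∀ i j k l, i < j → k < l → (i, j) ≠ (k, l) →
    IsCoprime (overQ (u i - u j)) (overQ (u k - u l))

/-- The polynomials `G i` are irreducible, not constant, not associated with each other, and coprime
to the differences of the `u i`. -/
structure Independent {n r : ℕ} (u : Fin n → ℤ[X]) (G : Fin r → ℤ[X]) : Prop where
  irreducible : ∀ l, Irreducible (G l)
  nonconstant : ∀ l, 0 < (G l).natDegree
  different : ∀ l m, l ≠ m → ¬ Associated (G l) (G m)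
  coprime : ∀ l i j, i < j → IsCoprime (overQ (G l)) (overQ (u i - u j))

open Classical in
/-- The integers `t` of the interval `(N, N + M]` such that the points `u i (t)` are different, all
the numbers `|G l (t)|` are prime, and `P t` holds. -/
noncomputable def arguments {n r : ℕ} (u : Fin n → ℤ[X]) (G : Fin r → ℤ[X]) (N : ℤ) (M : ℕ)
    (P : ℤ → Prop) : Finset ℤ :=
  (Ioc N (N + (M : ℤ))).filter (fun t => Function.Injective (member u t) ∧
    (∀ l, ((G l).eval t).natAbs.Prime) ∧ P t)

lemma mem_arguments {n r : ℕ} {u : Fin n → ℤ[X]} {G : Fin r → ℤ[X]} {N : ℤ} {M : ℕ}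
    {P : ℤ → Prop} {t : ℤ} : t ∈ arguments u G N M P ↔ t ∈ Ioc N (N + (M : ℤ)) ∧
      Function.Injective (member u t) ∧ (∀ l, ((G l).eval t).natAbs.Prime) ∧ P t := by
  classical
  unfold arguments
  rw [mem_filter]

lemma markov {S : Finset ℤ} {R : ℤ → ℝ} {P : ℤ → Prop} [DecidablePred P] {k m : ℕ} {B : ℝ}
    (hR : ∀ t ∈ S, 0 ≤ R t) (h : ∑ t ∈ S, R t ^ k ≤ B) (hP : ∀ t ∈ S, P t → (2 : ℝ) ^ m ≤ R t) :
    (2 : ℝ) ^ (k * m) * ((S.filter P).card : ℝ) ≤ B := by
  refine le_trans ?_ h
  calc (2 : ℝ) ^ (k * m) * ((S.filter P).card : ℝ) = ∑ t ∈ S.filter P, (2 : ℝ) ^ (k * m) := by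
        rw [sum_const, nsmul_eq_mul, mul_comm]
    _ ≤ ∑ t ∈ S.filter P, R t ^ k := by
        apply sum_le_sum
        intro t ht
        rw [mem_filter] at ht
        rw [mul_comm, pow_mul]
        exact pow_le_pow_left₀ (by positivity) (hP t ht.1 ht.2) k
    _ ≤ _ := sum_le_sum_of_subset_of_nonneg (filter_subset _ _) fun t ht _ =>
        pow_nonneg (hR t ht) k

/-- **Theorem.** Let `g ≥ 1`, `ν ≥ 1` and let `u` be an admissible family of type `ν` of `2 g + 1`
polynomials with integer coefficients. For every integer `t` for which the numbers `u i (t)` are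
different, the 2-Selmer group `Sel2 (member u t)` of the Jacobian `J_t` of `y² = ∏ (x - u i (t))` is
finite and contains the (nonempty) image `MW (member u t)` of `J_t(ℚ) / 2 J_t(ℚ)`. Let `k ≥ 1` and
`2 ^ k ≤ 2 g` (so `k = 1` is allowed for every `g`), let `G` be a family of `r ≥ 0` polynomials
that is independent of `u`, and let `L` be given. There is `C` such that for all `M ≥ 2` and all `N`,
`|N| ≤ M ^ L`, the sum of `(# Sel2 (member u t)) ^ k` over the integers `t` of `(N, N + M]` for which
the `u i (t)` are different and all the `|G l (t)|` are prime is at most `C * M / (log M) ^ r`; and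
for every `m`, the number of these `t` with `# Sel2 ≥ 2 ^ m` is at most
`C * M / (2 ^ (k m) * (log M) ^ r)`. The same holds for the `t` with `# MW ≥ 2 ^ m`, and for the `t`
with `# Sel2 / # MW ≥ 2 ^ m`, where `# Sel2 / # MW` is the order of `Ш(J_t)[2]`. -/
theorem result (g ν : ℕ) (hg : 1 ≤ g) (hν : 1 ≤ ν) (u : Fin (2 * g + 1) → ℤ[X])
    (hu : Admissible ν u) :
    (∀ t : ℤ, Function.Injective (member u t) → (Sel2 (member u t)).Finite ∧
      MW (member u t) ⊆ Sel2 (member u t) ∧ (MW (member u t)).Nonempty) ∧
    ∀ (k r L : ℕ) (G : Fin r → ℤ[X]), 1 ≤ k → 2 ^ k ≤ 2 * g → Independent u G →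
      ∃ C : ℝ, ∀ (N : ℤ) (M : ℕ), 2 ≤ M → |N| ≤ (M : ℤ) ^ L →
        ∑ t ∈ arguments u G N M (fun _ => True), ((Sel2 (member u t)).ncard : ℝ) ^ k ≤
          C * (M / (Real.log M) ^ r) ∧
        ∀ m : ℕ,
          (2 : ℝ) ^ (k * m) * ((arguments u G N M (fun t =>
            2 ^ m ≤ (Sel2 (member u t)).ncard)).card : ℝ) ≤ C * (M / (Real.log M) ^ r) ∧
          (2 : ℝ) ^ (k * m) * ((arguments u G N M (fun t =>
            2 ^ m ≤ (MW (member u t)).ncard)).card : ℝ) ≤ C * (M / (Real.log M) ^ r) ∧
          (2 : ℝ) ^ (k * m) * ((arguments u G N M (fun t => 2 ^ m * (MW (member u t)).ncard ≤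
            (Sel2 (member u t)).ncard)).card : ℝ) ≤ C * (M / (Real.log M) ^ r) := by
  classical
  have hodd : Odd (2 * g + 1) := ⟨g, rfl⟩
  have hfin : ∀ t : ℤ, Function.Injective (member u t) → (Sel2 (member u t)).Finite ∧
      MW (member u t) ⊆ Sel2 (member u t) ∧ (MW (member u t)).Nonempty := by
    intro t ht
    refine ⟨Pool.Agent.TH344.JG.seljf hodd ht, ?_, ?_⟩
    · rintro e ⟨h1, h2⟩
      exact ⟨h1, Pool.Agent.TH344.JG.LocJ_map (algebraMap ℚ ℝ) h2, fun p _ =>
        Pool.Agent.TH344.JG.LocJ_map (algebraMap ℚ ℚ_[p]) h2⟩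
    · exact ⟨fun _ => 1, fun _ => squarefree_one, Pool.Agent.TH344.JG.LocJ_one ℚ _⟩
  refine ⟨hfin, fun k r L G hk hkg hG => ?_⟩
  have hGen : Pool.Agent.TH344.PJ.Gen u := ⟨hu.squarefree, hu.coprime⟩
  obtain ⟨C, -, hC⟩ := Pool.Agent.TH344.PJ.gen_prime g k ν L hg hk hkg hν u hGen hu.card
    ⟨hG.irreducible, hG.nonconstant, hG.different⟩ hG.coprime
  refine ⟨C, fun N M hM hN => ?_⟩
  have h0 : ∑ t ∈ arguments u G N M (fun _ => True), ((Sel2 (member u t)).ncard : ℝ) ^ k ≤
      C * (M / (Real.log M) ^ r) := by
    refine le_trans (le_of_eq ?_) (hC N M hM hN)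
    apply sum_congr _ fun _ _ => rfl
    ext t
    rw [mem_arguments, mem_filter]
    simp only [and_true]
    rfl
  refine ⟨h0, fun m => ?_⟩
  have key : ∀ P : ℤ → Prop, (∀ t, Function.Injective (member u t) → P t →
      (2 : ℝ) ^ m ≤ ((Sel2 (member u t)).ncard : ℝ)) →
      (2 : ℝ) ^ (k * m) * ((arguments u G N M P).card : ℝ) ≤ C * (M / (Real.log M) ^ r) := by
    intro P hP
    have h1 := markov (P := P) (m := m) (fun t _ => Nat.cast_nonneg _) h0 (fun t ht h2 =>
      hP t (mem_arguments.1 ht).2.1 h2)
    have h2 : (arguments u G N M (fun _ => True)).filter P = arguments u G N M P := by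
      ext t
      rw [mem_filter, mem_arguments, mem_arguments]
      tauto
    rw [h2] at h1
    exact h1
  refine ⟨key _ fun t _ h => by exact_mod_cast h, key _ fun t ht h => ?_, key _ fun t ht h => ?_⟩
  · obtain ⟨h4, h5, -⟩ := hfin _ ht
    exact_mod_cast h.trans (Set.ncard_le_ncard h5 h4)
  · obtain ⟨h4, h5, h6⟩ := hfin _ ht
    have h7 : 0 < (MW (member u t)).ncard := (Set.ncard_pos (h4.subset h5)).2 h6
    exact_mod_cast (Nat.le_mul_of_pos_right _ h7).trans h

end Pool.Agent.Results.MP_787500_nt.JacobianPencils
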