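import Mathlib
import Pool.Agent.TH344.JG.Main
import Pool.Agent.TH344.JG.MW

/-!
# The 2-descent on the Jacobians of the hyperelliptic curves `y² = ∏ (x - a_i)`, `a_i ∈ ℤ`

Let `g ≥ 1`, let `a_0, ..., a_(2g)` be distinct integers, and let `J` be the Jacobian of the curve
`X : y² = ∏ (x - a_i)` of genus `g` over `ℚ`. We order the tuples `(a_i)` by `max |a_i|`. There is
one set of tuples of density zero such that over all the other tuples all the moments of the orders
of the 2-Selmer groups of `J` are bounded. So the density of the tuples for which the 2-Selmer group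
of `J` has at least `2 ^ r` elements decays faster than any exponential `A ^ (-r)`, and the same is
true for `J(ℚ) / 2 J(ℚ)` and for `Ш(J)[2]`.

The descent map. Every class of divisors of degree zero on `X` over an infinite field `K` contains a
divisor `D_(u,v) = ∑ (x_j, v (x_j)) - deg u · ∞`, `x_j` the zeros of the monic polynomial `u`, where
`u` divides `∏ (x - a_i) - v²` and `u (a_i) ≠ 0` for all `i` (Mumford representation). The map
`J(K) / 2 J(K) → (K^* / K^*²)^(2g+1)` which sends this class to the family of the classes of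
`(-1) ^ deg u * u (a_i)` is injective, and it is induced by the isomorphism of `J[2]` with the group
of the families of signs with product one, indexed by the `a_i`. So the 2-Selmer group of `J` is the
group of the families of classes in `ℚ^* / ℚ^*²`, that are in the image over `ℝ` and over `ℚ_p` for
all primes `p`. The classes of `ℚ^* / ℚ^*²` are represented by squarefree integers.
-/

namespace Pool.Agent.Results.MP_787500_nt.JacobianTails

open Polynomial Filter Topology

/-- The family of the classes of the integers `d i` in `K^* / K^*²` is in the image of the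
Jacobian of `y² = ∏ (x - a i)` over `K`: there are a monic polynomial `u` and a polynomial `v` with
`u ∣ ∏ (x - a i) - v²`, such that `u (a i) ≠ 0` and `(-1) ^ deg u * u (a i) * d i` is a square for
all `i`. -/
def Image (K : Type) [Field K] {n : ℕ} (a d : Fin n → ℤ) : Prop :=
  ∃ u v : K[X], u.Monic ∧ u ∣ (∏ i, (X - C ((a i : ℤ) : K))) - v ^ 2 ∧
    ∀ i, u.eval ((a i : ℤ) : K) ≠ 0 ∧
      IsSquare ((-1) ^ u.natDegree * u.eval ((a i : ℤ) : K) * ((d i : ℤ) : K))

/-- The image of the Mordell-Weil group `J(ℚ)`, as a set of families of squarefree integers. It has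
as many elements as `J(ℚ) / 2 J(ℚ)`. -/
def MW {n : ℕ} (a : Fin n → ℤ) : Set (Fin n → ℤ) := {d | (∀ i, Squarefree (d i)) ∧ Image ℚ a d}

/-- The 2-Selmer group of the Jacobian `J` of `y² = ∏ (x - a i)`, as a set of families of
squarefree integers. The quotient of this group by `MW a` is `Ш(J)[2]`. -/
def Sel2 {n : ℕ} (a : Fin n → ℤ) : Set (Fin n → ℤ) :=
  {d | (∀ i, Squarefree (d i)) ∧ Image ℝ a d ∧ ∀ (p : ℕ) [Fact p.Prime], Image ℚ_[p] a d}

/-- the tuples with `|a i| ≤ N` -/
def Box (n N : ℕ) : Set (Fin n → ℤ) := {a | ∀ i, |a i| ≤ N}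

/-- the proportion of `S` in the box -/
noncomputable def proportion {n : ℕ} (S : Set (Fin n → ℤ)) (N : ℕ) : ℝ :=
  ((Box n N ∩ S).ncard : ℝ) / (Box n N).ncard

/-- the upper density -/
noncomputable def upperDensity {n : ℕ} (S : Set (Fin n → ℤ)) : ℝ := limsup (proportion S) atTop

lemma Box_eq (n N : ℕ) : Box n N = (Pool.Agent.TH344.JG.BoxJ n N : Set (Fin n → ℤ)) := by
  ext a
  rw [Finset.mem_coe, Pool.Agent.TH344.JG.mem_BoxJ]
  unfold Box
  rw [Set.mem_ofPred_eq]
  refine forall_congr' fun i => ?_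
  rw [Int.abs_eq_natAbs]
  exact Nat.cast_le

lemma proportion_eq {n : ℕ} (S : Set (Fin n → ℤ)) :
    proportion S = Pool.Agent.TH344.GT.pr (Pool.Agent.TH344.JG.BoxJ n) S := by
  funext N
  unfold proportion Pool.Agent.TH344.GT.pr
  rw [Box_eq, Set.ncard_coe_finset]

lemma upperDensity_eq {n : ℕ} (S : Set (Fin n → ℤ)) :
    upperDensity S = Pool.Agent.TH344.GT.ud (Pool.Agent.TH344.JG.BoxJ n) S := by
  unfold upperDensity Pool.Agent.TH344.GT.ud
  rw [proportion_eq]

/-- **Theorem.** Let `g ≥ 1` and consider the tuples `a` of `2 g + 1` integers, ordered by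
`max |a i|`. For every tuple of distinct integers the 2-Selmer group `Sel2 a` of the Jacobian `J` of
`y² = ∏ (x - a i)` is finite and contains the (nonempty) image `MW a` of `J(ℚ) / 2 J(ℚ)`. There is a
set `Z` of tuples of density zero, which contains all the tuples with two equal entries, such that
for every `k` the sum of `(# Sel2 a) ^ k` over the tuples of the box `|a i| ≤ N` outside of `Z` is at
most `C_k` times the number of the tuples of the box. For every real number `A`, the upper density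
of the tuples of distinct integers for which `Sel2 a` has at least `2 ^ r` elements, times `A ^ r`,
tends to zero for `r → ∞`; the same holds for the tuples for which `#MW a` is at least `2 ^ r`, and
for the tuples for which `#Sel2 a / #MW a`, the order of `Ш(J)[2]`, is at least `2 ^ r`. -/
theorem result (g : ℕ) (hg : 1 ≤ g) :
    (∀ a : Fin (2 * g + 1) → ℤ, Function.Injective a →
      (Sel2 a).Finite ∧ MW a ⊆ Sel2 a ∧ (MW a).Nonempty) ∧
    (∃ Z : Set (Fin (2 * g + 1) → ℤ), Tendsto (proportion Z) atTop (𝓝 0) ∧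
      (∀ a, ¬ Function.Injective a → a ∈ Z) ∧ ∀ k : ℕ, ∃ C : ℝ, ∀ N : ℕ,
        ∑ᶠ a ∈ Box (2 * g + 1) N \ Z, ((Sel2 a).ncard : ℝ) ^ k ≤
          C * (Box (2 * g + 1) N).ncard) ∧
    ∀ A : ℝ,
      Tendsto (fun r : ℕ => A ^ r * upperDensity {a : Fin (2 * g + 1) → ℤ |
        Function.Injective a ∧ 2 ^ r ≤ (Sel2 a).ncard}) atTop (𝓝 0) ∧
      Tendsto (fun r : ℕ => A ^ r * upperDensity {a : Fin (2 * g + 1) → ℤ |
        Function.Injective a ∧ 2 ^ r ≤ (MW a).ncard}) atTop (𝓝 0) ∧
      Tendsto (fun r : ℕ => A ^ r * upperDensity {a : Fin (2 * g + 1) → ℤ |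
        Function.Injective a ∧ 2 ^ r * (MW a).ncard ≤ (Sel2 a).ncard}) atTop (𝓝 0) := by
  classical
  have hodd : Odd (2 * g + 1) := ⟨g, rfl⟩
  have h3 : 3 ≤ 2 * g + 1 := by omega
  have hfin : ∀ a : Fin (2 * g + 1) → ℤ, Function.Injective a →
      (Sel2 a).Finite ∧ MW a ⊆ Sel2 a ∧ (MW a).Nonempty := by
    intro a ha
    refine ⟨Pool.Agent.TH344.JG.seljf hodd ha, ?_, ?_⟩
    · rintro d ⟨h1, h2⟩
      exact ⟨h1, Pool.Agent.TH344.JG.LocJ_map (algebraMap ℚ ℝ) h2, fun p _ =>
        Pool.Agent.TH344.JG.LocJ_map (algebraMap ℚ ℚ_[p]) h2⟩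
    · exact ⟨fun _ => 1, fun _ => squarefree_one, Pool.Agent.TH344.JG.LocJ_one ℚ a⟩
  obtain ⟨Z, hZ0, hZ1, hZ2⟩ := Pool.Agent.TH344.JG.excj h3 hodd
  have hexc : Pool.Agent.TH344.GT.EXC (Pool.Agent.TH344.JG.BoxJ (2 * g + 1))
      (fun a => (Sel2 a).ncard) := by
    refine ⟨Z, fun ε hε => ?_, fun k => ?_⟩
    · obtain ⟨H0, h⟩ := hZ1 ε hε
      exact ⟨H0, h⟩
    · obtain ⟨C, h⟩ := hZ2 k
      exact ⟨C, h⟩
  refine ⟨hfin, ⟨Z, ?_, hZ0, fun k => ?_⟩, fun A => ⟨?_, ?_, ?_⟩⟩
  · rw [proportion_eq]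
    exact Pool.Agent.TH344.GT.tendsto_of_eps _ hZ1
  · obtain ⟨C, hC⟩ := hZ2 k
    refine ⟨C, fun N => ?_⟩
    have h1 : Box (2 * g + 1) N \ Z =
        (((Pool.Agent.TH344.JG.BoxJ (2 * g + 1) N).filter (fun a => a ∉ Z) :
          Finset (Fin (2 * g + 1) → ℤ)) : Set (Fin (2 * g + 1) → ℤ)) := by
      rw [Box_eq]
      ext a
      simp
    rw [h1, finsum_mem_coe_finset, Box_eq, Set.ncard_coe_finset]
    exact hC N
  · simp only [upperDensity_eq]
    apply Pool.Agent.TH344.GT.tail _ hexc 1
    rintro r N a - ⟨-, h⟩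
    rw [pow_one]
    exact h
  · simp only [upperDensity_eq]
    apply Pool.Agent.TH344.GT.tail _ hexc 1
    rintro r N a - ⟨h1, h2⟩
    rw [pow_one]
    obtain ⟨h4, h5, -⟩ := hfin a h1
    exact h2.trans (Set.ncard_le_ncard h5 h4)
  · simp only [upperDensity_eq]
    apply Pool.Agent.TH344.GT.tail _ hexc 1
    rintro r N a - ⟨h1, h2⟩
    rw [pow_one]
    obtain ⟨h4, h5, h6⟩ := hfin a h1
    have h7 : 0 < (MW a).ncard := (Set.ncard_pos (h4.subset h5)).2 h6
    exact (Nat.le_mul_of_pos_right _ h7).trans h2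

end Pool.Agent.Results.MP_787500_nt.JacobianTails
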