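import Mathlib
import Pool.Agent.TH344.TJ.Main

/-!
# The 2-Selmer groups of the quadratic twists of a hyperelliptic Jacobian by polynomial values

Let `g ≥ 1`, let `a_0, ..., a_(2g)` be distinct integers and let `J` be the Jacobian of the curve
`y² = ∏ (x - a_i)` of genus `g` over `ℚ`. For an integer `e ≠ 0` let `J_e` be the quadratic twist of
`J` by `ℚ(√e)`. This is the Jacobian of `e y² = ∏ (x - a_i)`, i.e. of `y² = ∏ (x - e a_i)`. Let `D`
be any nonzero polynomial with integer coefficients and let `G_1, ..., G_r` be different irreducible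
polynomials (which may divide `D`). We consider the abelian varieties `J_(D(t))` for the integers `t`
of the interval `(N, N + M]`, `|N| ≤ M ^ L`, for which the numbers `|G_1(t)|, ..., |G_r(t)|` are all
prime; `r = 0` is the case of all `t`. All the moments of the orders of their 2-Selmer groups are
bounded, relative to `M / (log M) ^ r`. For instance, for the twists of `J` by all the values `D(t)`,
or by the primes `p ≤ M` (`G_1 = D = X`), or by the `D(p)`, all the moments of the order of the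
2-Selmer group are bounded. In particular the rank of `J_(D(t))(ℚ)` and the corank of
`Ш(J_(D(t)))[2 ^ ∞]` are at least `n` for at most `C_A M / (A ^ n (log M) ^ r)` of these `t`, for
every real number `A`.

The descent map. Every class of divisors of degree zero on `X : y² = ∏ (x - a_i)` over an infinite
field `K` contains a divisor `D_(u,v) = ∑ (x_j, v (x_j)) - deg u · ∞`, `x_j` the zeros of the monic
polynomial `u`, where `u` divides `∏ (x - a_i) - v²` and `u (a_i) ≠ 0` for all `i` (Mumford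
representation). The map `J(K) / 2 J(K) → (K^* / K^*²)^(2g+1)` which sends this class to the family
of the classes of `(-1) ^ deg u * u (a_i)` is injective, and it is induced by the isomorphism of
`J[2]` with the group of the families of signs with product one, indexed by the `a_i`. So the
2-Selmer group of `J` is the group of the families of classes in `ℚ^* / ℚ^*²`, that are in the image
over `ℝ` and over `ℚ_p` for all primes `p`. The classes of `ℚ^* / ℚ^*²` are represented by
squarefree integers.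
-/

namespace Pool.Agent.Results.MP_787500_nt.JacobianTwists

open Polynomial Finset

/-- The family of the classes of the integers `d i` in `K^* / K^*²` is in the image of the
Jacobian of `y² = ∏ (x - a i)` over `K`: there are a monic polynomial `u` and a polynomial `v` with
`u ∣ ∏ (x - a i) - v²`, such that `u (a i) ≠ 0` and `(-1) ^ deg u * u (a i) * d i` is a square for
all `i`. -/
def Image (K : Type) [Field K] {n : ℕ} (a d : Fin n → ℤ) : Prop :=
  ∃ u v : K[X], u.Monic ∧ u ∣ (∏ i, (X - C ((a i : ℤ) : K))) - v ^ 2 ∧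
    ∀ i, u.eval ((a i : ℤ) : K) ≠ 0 ∧
      IsSquare ((-1) ^ u.natDegree * u.eval ((a i : ℤ) : K) * ((d i : ℤ) : K))

/-- The image of the Mordell-Weil group `J(ℚ)`, as a set of families of squarefree integers. It has
as many elements as `J(ℚ) / 2 J(ℚ)`. -/
def MW {n : ℕ} (a : Fin n → ℤ) : Set (Fin n → ℤ) := {d | (∀ i, Squarefree (d i)) ∧ Image ℚ a d}

/-- The 2-Selmer group of the Jacobian `J` of `y² = ∏ (x - a i)`, as a set of families of
squarefree integers. The quotient of this group by `MW a` is `Ш(J)[2]`. -/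
def Sel2 {n : ℕ} (a : Fin n → ℤ) : Set (Fin n → ℤ) :=
  {d | (∀ i, Squarefree (d i)) ∧ Image ℝ a d ∧ ∀ (p : ℕ) [Fact p.Prime], Image ℚ_[p] a d}

/-- the Weierstrass points of the quadratic twist by `d` of `y² = ∏ (x - a i)` -/
def twist {n : ℕ} (d : ℤ) (a : Fin n → ℤ) : Fin n → ℤ := fun i => d * a i

/-- The polynomials `G l` are irreducible, not constant and not associated with each other. -/
structure Different {r : ℕ} (G : Fin r → ℤ[X]) : Prop where
  irreducible : ∀ l, Irreducible (G l)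
  nonconstant : ∀ l, 0 < (G l).natDegree
  different : ∀ l m, l ≠ m → ¬ Associated (G l) (G m)

open Classical in
/-- The integers `t` of the interval `(N, N + M]` with `D t ≠ 0` such that all the numbers `|G l (t)|`
are prime, and `P t` holds. -/
noncomputable def arguments {r : ℕ} (D : ℤ[X]) (G : Fin r → ℤ[X]) (N : ℤ) (M : ℕ)
    (P : ℤ → Prop) : Finset ℤ :=
  (Ioc N (N + (M : ℤ))).filter (fun t => D.eval t ≠ 0 ∧
    (∀ l, ((G l).eval t).natAbs.Prime) ∧ P t)

lemma mem_arguments {r : ℕ} {D : ℤ[X]} {G : Fin r → ℤ[X]} {N : ℤ} {M : ℕ}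
    {P : ℤ → Prop} {t : ℤ} : t ∈ arguments D G N M P ↔ t ∈ Ioc N (N + (M : ℤ)) ∧
      D.eval t ≠ 0 ∧ (∀ l, ((G l).eval t).natAbs.Prime) ∧ P t := by
  classical
  unfold arguments
  rw [mem_filter]

lemma markov {S : Finset ℤ} {R : ℤ → ℝ} {P : ℤ → Prop} [DecidablePred P] {k r : ℕ} {B : ℝ}
    (hR : ∀ t ∈ S, 0 ≤ R t) (h : ∑ t ∈ S, R t ^ k ≤ B) (hP : ∀ t ∈ S, P t → (2 : ℝ) ^ r ≤ R t) :
    ((2 : ℝ) ^ k) ^ r * ((S.filter P).card : ℝ) ≤ B := by
  refine le_trans ?_ h
  calc ((2 : ℝ) ^ k) ^ r * ((S.filter P).card : ℝ) = ∑ t ∈ S.filter P, ((2 : ℝ) ^ k) ^ r := by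
        rw [sum_const, nsmul_eq_mul, mul_comm]
    _ ≤ ∑ t ∈ S.filter P, R t ^ k := by
        apply sum_le_sum
        intro t ht
        rw [mem_filter] at ht
        rw [← pow_mul, mul_comm, pow_mul]
        exact pow_le_pow_left₀ (by positivity) (hP t ht.1 ht.2) k
    _ ≤ _ := sum_le_sum_of_subset_of_nonneg (filter_subset _ _) fun t ht _ =>
        pow_nonneg (hR t ht) k

/-- **Theorem.** Let `g ≥ 1` and let `a` be a family of `2 g + 1` distinct integers. For every
integer `e ≠ 0` the 2-Selmer group `Sel2 (twist e a)` of the Jacobian `J_e` of `y² = ∏ (x - e a_i)`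
is finite and contains the (nonempty) image `MW (twist e a)` of `J_e(ℚ) / 2 J_e(ℚ)`. Let `D` be a
nonzero polynomial with integer coefficients and `G` a family of `r ≥ 0` different irreducible
polynomials. For all `k`, `L` there is `C` such that the sum of `(# Sel2 (twist (D t) a)) ^ k` over
the integers `t` of `(N, N + M]` with `D t ≠ 0` for which all the `|G l (t)|` are prime is at most
`C * M / (log M) ^ r`, for all `M ≥ 2` and all `N`, `|N| ≤ M ^ L`. For every real number `A ≥ 0` and
every `L` there is `C` such that for all `n`, all `M ≥ 2` and all `N`, `|N| ≤ M ^ L`, the number of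
these `t` for which `# Sel2 ≥ 2 ^ n` is at most `C * M / (A ^ n * (log M) ^ r)`; the same holds
for `# MW ≥ 2 ^ n` and for `# Sel2 / # MW ≥ 2 ^ n`, where `# Sel2 / # MW` is the order of
`Ш(J_(D t))[2]`. -/
theorem result (g : ℕ) (hg : 1 ≤ g) (a : Fin (2 * g + 1) → ℤ) (ha : Function.Injective a) :
    (∀ e : ℤ, e ≠ 0 → (Sel2 (twist e a)).Finite ∧ MW (twist e a) ⊆ Sel2 (twist e a) ∧
      (MW (twist e a)).Nonempty) ∧
    ∀ (r : ℕ) (D : ℤ[X]) (G : Fin r → ℤ[X]), D ≠ 0 → Different G →
      (∀ k L : ℕ, ∃ C : ℝ, ∀ (N : ℤ) (M : ℕ), 2 ≤ M → |N| ≤ (M : ℤ) ^ L →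
        ∑ t ∈ arguments D G N M (fun _ => True),
          ((Sel2 (twist (D.eval t) a)).ncard : ℝ) ^ k ≤ C * (M / (Real.log M) ^ r)) ∧
      ∀ (A : ℝ) (L : ℕ), 0 ≤ A → ∃ C : ℝ, ∀ (n : ℕ) (N : ℤ) (M : ℕ), 2 ≤ M →
        |N| ≤ (M : ℤ) ^ L →
        A ^ n * ((arguments D G N M (fun t =>
          2 ^ n ≤ (Sel2 (twist (D.eval t) a)).ncard)).card : ℝ) ≤ C * (M / (Real.log M) ^ r) ∧
        A ^ n * ((arguments D G N M (fun t =>
          2 ^ n ≤ (MW (twist (D.eval t) a)).ncard)).card : ℝ) ≤ C * (M / (Real.log M) ^ r) ∧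
        A ^ n * ((arguments D G N M (fun t => 2 ^ n * (MW (twist (D.eval t) a)).ncard ≤
            (Sel2 (twist (D.eval t) a)).ncard)).card : ℝ) ≤ C * (M / (Real.log M) ^ r) := by
  classical
  have hodd : Odd (2 * g + 1) := ⟨g, rfl⟩
  have hfin : ∀ d : ℤ, d ≠ 0 → (Sel2 (twist d a)).Finite ∧ MW (twist d a) ⊆ Sel2 (twist d a) ∧
      (MW (twist d a)).Nonempty := by
    intro d hd
    have hinj : Function.Injective (twist d a) := by
      intro i j hij
      exact ha (mul_left_cancel₀ hd hij)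
    refine ⟨Pool.Agent.TH344.JG.seljf hodd hinj, ?_, ?_⟩
    · rintro e ⟨h1, h2⟩
      exact ⟨h1, Pool.Agent.TH344.JG.LocJ_map (algebraMap ℚ ℝ) h2, fun p _ =>
        Pool.Agent.TH344.JG.LocJ_map (algebraMap ℚ ℚ_[p]) h2⟩
    · exact ⟨fun _ => 1, fun _ => squarefree_one, Pool.Agent.TH344.JG.LocJ_one ℚ _⟩
  refine ⟨hfin, fun r D G hD hG => ?_⟩
  have hmom : ∀ k L : ℕ, ∃ C : ℝ, ∀ (N : ℤ) (M : ℕ), 2 ≤ M → |N| ≤ (M : ℤ) ^ L →
      ∑ t ∈ arguments D G N M (fun _ => True),
        ((Sel2 (twist (D.eval t) a)).ncard : ℝ) ^ k ≤ C * (M / (Real.log M) ^ r) := by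
    intro k L
    obtain ⟨C, -, hC⟩ := Pool.Agent.TH344.TJ.rj_prime hg a ha
      (⟨hG.irreducible, hG.nonconstant, hG.different⟩ : Pool.Agent.TH841.PT.Irr G) D hD k L
    refine ⟨C, fun N M hM hN => ?_⟩
    refine le_trans (le_of_eq ?_) (hC N M hM hN)
    apply sum_congr _ fun _ _ => rfl
    ext t
    rw [mem_filter, mem_arguments]
    simp only [and_true]
    rfl
  refine ⟨hmom, fun A L hA => ?_⟩
  obtain ⟨k, hk⟩ := pow_unbounded_of_one_lt A (one_lt_two : (1 : ℝ) < 2)
  obtain ⟨C, hC⟩ := hmom k L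
  refine ⟨C, fun n N M hM hN => ?_⟩
  have h0 := hC N M hM hN
  have key : ∀ P : ℤ → Prop, (∀ t, D.eval t ≠ 0 → P t →
      (2 : ℝ) ^ n ≤ ((Sel2 (twist (D.eval t) a)).ncard : ℝ)) →
      A ^ n * ((arguments D G N M P).card : ℝ) ≤ C * (M / (Real.log M) ^ r) := by
    intro P hP
    have h1 := markov (P := P) (r := n) (fun t _ => Nat.cast_nonneg _) h0 (fun t ht h2 =>
      hP t (mem_arguments.1 ht).2.1 h2)
    have h2 : (arguments D G N M (fun _ => True)).filter P = arguments D G N M P := by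
      ext t
      rw [mem_filter, mem_arguments, mem_arguments]
      tauto
    rw [h2] at h1
    refine le_trans (mul_le_mul_of_nonneg_right ?_ (Nat.cast_nonneg _)) h1
    exact pow_le_pow_left₀ hA hk.le n
  refine ⟨key _ fun t _ h => by exact_mod_cast h, key _ fun t ht h => ?_, key _ fun t ht h => ?_⟩
  · obtain ⟨h4, h5, -⟩ := hfin _ ht
    exact_mod_cast h.trans (Set.ncard_le_ncard h5 h4)
  · obtain ⟨h4, h5, h6⟩ := hfin _ ht
    have h7 : 0 < (MW (twist (D.eval t) a)).ncard := (Set.ncard_pos (h4.subset h5)).2 h6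
    exact_mod_cast (Nat.le_mul_of_pos_right _ h7).trans h

end Pool.Agent.Results.MP_787500_nt.JacobianTwists
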